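import Pool.Agent.Helper96.BC.St

/-!
# Project BC, module C2 (only the primes of degree one matter)
-/

set_option autoImplicit false

namespace Pool.Agent.Helper82.BC

open Pool.Agent.Helper96.BC Pool.Agent.Helper95.TT
open Filter Topology
open scoped TensorProduct Classical

private lemma wt_nn2 {K : Type} [Field K] [NumberField K] (s : ℝ) (v : Pr K) : 0 ≤ wt s v :=
  mul_nonneg (Real.log_natCast_nonneg _) (Real.rpow_nonneg (Nat.cast_nonneg _) _)

private lemma wt_big {K K' : Type} [Field K] [NumberField K] [Field K'] [NumberField K'] (s : ℝ)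
    (hs : 1 < s) (w : Pr K) (v : Pr K') (h2 : 2 ≤ q v) (h : q v ^ 2 ≤ q w) :
    wt s w ≤ 2 * wt 2 v := by
  have hQ : (2 : ℝ) ≤ q v := by exact_mod_cast h2
  have hQ0 : (0 : ℝ) < q v := by linarith
  have hy4 : (4 : ℝ) ≤ (q v : ℝ) ^ 2 := by nlinarith
  have hy0 : (0 : ℝ) < (q v : ℝ) ^ 2 := by positivity
  have hyx : (q v : ℝ) ^ 2 ≤ q w := by exact_mod_cast h
  have hx0 : (0 : ℝ) < q w := by linarith
  have he : Real.exp 1 ≤ (q v : ℝ) ^ 2 := by
    have := Real.exp_one_lt_d9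
    linarith
  have h1 : Real.log (q w) / q w ≤ Real.log ((q v : ℝ) ^ 2) / (q v : ℝ) ^ 2 :=
    Real.log_div_self_antitoneOn he (he.trans hyx) hyx
  have h3 : (q w : ℝ) ^ (-(s - 1)) ≤ ((q v : ℝ) ^ 2) ^ (-(s - 1)) :=
    Real.rpow_le_rpow_of_nonpos hy0 hyx (by linarith)
  have h4 : ((q v : ℝ) ^ 2) ^ (-(s - 1)) ≤ 1 :=
    Real.rpow_le_one_of_one_le_of_nonpos (by linarith) (by linarith)
  have hl0 : 0 ≤ Real.log ((q v : ℝ) ^ 2) / (q v : ℝ) ^ 2 :=
    div_nonneg (Real.log_nonneg (by linarith)) hy0.le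
  unfold wt
  have e1 : (q w : ℝ) ^ (-s) = (q w : ℝ)⁻¹ * (q w : ℝ) ^ (-(s - 1)) := by
    rw [← Real.rpow_neg_one, ← Real.rpow_add hx0]
    congr 1
    ring
  have e2 : (q v : ℝ) ^ (-2 : ℝ) = ((q v : ℝ) ^ 2)⁻¹ := by
    rw [Real.rpow_neg hQ0.le]
    norm_num
  calc Real.log (q w) * (q w : ℝ) ^ (-s)
      = (Real.log (q w) / q w) * (q w : ℝ) ^ (-(s - 1)) := by rw [e1]; ring
    _ ≤ (Real.log ((q v : ℝ) ^ 2) / (q v : ℝ) ^ 2) * 1 :=
        mul_le_mul h1 (h3.trans h4) (Real.rpow_nonneg hx0.le _) hl0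
    _ = 2 * (Real.log (q v) * (q v : ℝ) ^ (-2 : ℝ)) := by
        rw [e2, Real.log_pow]
        push_cast
        ring

theorem hC2 : StA2 → StC1 → StC2 := by
  intro hA2 hC1 k K _ _ _ _ _ β C hβ
  obtain ⟨hex, hqq, hfin, hq2⟩ := hC1 k K
  have hex' : ∀ w : Pr K, ∃ v : Pr k, Above w v ∧ ∀ y : Pr k, Above w y → y = v := hex
  choose π hπ hπu using hex'
  have hAb : ∀ (w : Pr K) (v : Pr k), π w = v ↔ Above w v := by
    intro w v
    constructor
    · rintro rfl; exact hπ w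
    · intro h; exact (hπu w v h).symm
  set n := Module.finrank k K with hn
  let Fs : Pr k → Finset (Pr K) := fun v => (hfin v).1.toFinset
  have hFs : ∀ v w, w ∈ Fs v ↔ Above w v := fun v w => by simp [Fs]
  have hFc : ∀ v, (Fs v).card ≤ n := by
    intro v
    have := (hfin v).2
    rwa [Set.ncard_eq_toFinset_card _ (hfin v).1] at this
  let Ds : Pr k → Finset (Pr K) := fun v => (Fs v).filter (fun w => q w = q v)
  have hDs : ∀ v w, w ∈ Ds v ↔ Deg1 w v := fun v w => by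
    simp only [Ds, Finset.mem_filter, hFs]
    rfl
  have hN1 : ∀ v, N1 K v = (Ds v).card := by
    intro v
    unfold N1
    exact Nat.subtype_card (Ds v) (hDs v)
  have hS1 : ∀ v : Pr k, S1 β v = ∑ w ∈ Ds v, β w := by
    intro v
    unfold S1
    rw [finsum_subtype_eq_finsum_cond (f := β) (fun w => Deg1 w v), ← finsum_mem_finset_eq_sum]
    refine finsum_congr fun w => ?_
    have : Deg1 w v ↔ w ∈ Ds v := (hDs v w).symm
    simp only [this]
  have hCa : C ≤ |C| := le_abs_self C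
  have hb1 : ∀ v : Pr k, |S1 β v| ≤ C * N1 K v := by
    intro v
    rw [hS1, hN1]
    calc |∑ w ∈ Ds v, β w| ≤ ∑ w ∈ Ds v, |β w| := Finset.abs_sum_le_sum_abs _ _
      _ ≤ ∑ _w ∈ Ds v, C := Finset.sum_le_sum fun w _ => hβ w
      _ = C * ((Ds v).card : ℝ) := by rw [Finset.sum_const, nsmul_eq_mul, mul_comm]
  have hb2 : ∀ v : Pr k, N1 K v ≤ n := by
    intro v
    rw [hN1]
    exact (Finset.card_filter_le _ _).trans (hFc v)
  have hb3 : ∀ v : Pr k, |S1 β v| ≤ |C| * n := by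
    intro v
    refine (hb1 v).trans ?_
    have : (N1 K v : ℝ) ≤ n := by exact_mod_cast hb2 v
    calc C * (N1 K v : ℝ) ≤ |C| * N1 K v := mul_le_mul_of_nonneg_right hCa (Nat.cast_nonneg _)
      _ ≤ |C| * n := mul_le_mul_of_nonneg_left this (abs_nonneg _)
  have hs1 : ∀ s : ℝ, 1 < s → Summable (fun w : Pr K => β w * wt s w) := by
    intro s hs
    refine Summable.of_norm_bounded (((hA2 K).1 s hs).mul_left C) fun w => ?_
    rw [norm_mul, Real.norm_eq_abs, Real.norm_eq_abs, abs_of_nonneg (wt_nn2 s w)]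
    exact mul_le_mul_of_nonneg_right (hβ w) (wt_nn2 s w)
  have hs2 : ∀ s : ℝ, 1 < s → Summable (fun v : Pr k => S1 β v * wt s v) := by
    intro s hs
    refine Summable.of_norm_bounded (((hA2 k).1 s hs).mul_left (|C| * n)) fun v => ?_
    rw [norm_mul, Real.norm_eq_abs, Real.norm_eq_abs, abs_of_nonneg (wt_nn2 s v)]
    exact mul_le_mul_of_nonneg_right (hb3 v) (wt_nn2 s v)
  refine ⟨fun v => ⟨hb1 v, hb2 v⟩, fun s hs => ⟨hs1 s hs, hs2 s hs⟩, ?_⟩
  have hD : Summable (fun v : Pr k => 2 * |C| * n * wt 2 v) :=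
    ((hA2 k).1 2 (by norm_num)).mul_left _
  refine ⟨∑' v : Pr k, 2 * |C| * n * wt 2 v, fun s hs => ?_⟩
  let g : Pr k → ℝ := fun v => ∑' c : {w // π w = v}, β c.1 * wt s c.1
  have hgv : ∀ v, g v = ∑ w ∈ Fs v, β w * wt s w := by
    intro v
    have hT : {w | π w = v} = (Fs v : Set (Pr K)) := by
      ext w
      rw [Finset.mem_coe, hFs]
      exact hAb w v
    have h1 : g v = ∑' c : ({w | π w = v} : Set (Pr K)), β c.1 * wt s c.1 := rfl
    rw [h1, tsum_congr_set_coe (fun w => β w * wt s w) hT]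
    exact Finset.tsum_subtype' (Fs v) (fun w => β w * wt s w)
  have hsum : Summable (fun x : (Σ v, {w // π w = v}) => β x.2.1 * wt s x.2.1) :=
    (Equiv.sigmaFiberEquiv π).summable_iff.mpr (hs1 s hs)
  have hTL : ∑' w : Pr K, β w * wt s w = ∑' v, g v := by
    rw [← (Equiv.sigmaFiberEquiv π).tsum_eq (fun w => β w * wt s w)]
    exact hsum.tsum_sigma
  have hgs : Summable g := hsum.sigma
  have hpt : ∀ v : Pr k, ‖g v - S1 β v * wt s v‖ ≤ 2 * |C| * n * wt 2 v := by
    intro v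
    have e1 : g v - S1 β v * wt s v = ∑ w ∈ (Fs v).filter (fun w => ¬ q w = q v), β w * wt s w := by
      rw [hgv, hS1, Finset.sum_mul, ← Finset.sum_filter_add_sum_filter_not (Fs v)
        (fun w => q w = q v) (fun w => β w * wt s w)]
      have : ∑ w ∈ (Fs v).filter (fun w => q w = q v), β w * wt s w =
          ∑ w ∈ Ds v, β w * wt s v := by
        refine Finset.sum_congr rfl fun w hw => ?_
        rw [Finset.mem_filter] at hw
        unfold wt
        rw [hw.2]
      rw [this]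
      ring
    rw [e1, Real.norm_eq_abs]
    calc |∑ w ∈ (Fs v).filter (fun w => ¬ q w = q v), β w * wt s w|
        ≤ ∑ w ∈ (Fs v).filter (fun w => ¬ q w = q v), |β w * wt s w| :=
          Finset.abs_sum_le_sum_abs _ _
      _ ≤ ∑ _w ∈ (Fs v).filter (fun w => ¬ q w = q v), |C| * (2 * wt 2 v) := by
          refine Finset.sum_le_sum fun w hw => ?_
          rw [Finset.mem_filter, hFs] at hw
          have hw2 : q v ^ 2 ≤ q w := (hqq w v hw.1).resolve_left hw.2
          rw [abs_mul, abs_of_nonneg (wt_nn2 s w)]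
          exact mul_le_mul ((hβ w).trans hCa) (wt_big s hs w v (hq2 v) hw2) (wt_nn2 s w)
            (abs_nonneg _)
      _ = (((Fs v).filter (fun w => ¬ q w = q v)).card : ℝ) * (|C| * (2 * wt 2 v)) := by
          rw [Finset.sum_const, nsmul_eq_mul]
      _ ≤ n * (|C| * (2 * wt 2 v)) := by
          refine mul_le_mul_of_nonneg_right ?_
            (mul_nonneg (abs_nonneg _) (mul_nonneg (by norm_num) (wt_nn2 2 v)))
          exact_mod_cast (Finset.card_filter_le _ _).trans (hFc v)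
      _ = 2 * |C| * n * wt 2 v := by ring
  rw [hTL, ← hgs.tsum_sub (hs2 s hs), ← Real.norm_eq_abs]
  exact tsum_of_norm_bounded hD.hasSum hpt

end Pool.Agent.Helper82.BC
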