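import Pool.Agent.Helper96.BC.St

/-!
# Project BC, module C5 (the field `K ⊗ K'`)
-/

set_option autoImplicit false

namespace Pool.Agent.Helper82.BC

open Pool.Agent.Helper96.BC Pool.Agent.Helper95.TT
open scoped TensorProduct

private theorem fieldTP (k K K' : Type) [Field k] [Field K] [NumberField K]
    [Field K'] [Algebra k K] [Algebra k K'] (R : Type) [CommRing R] [Algebra k R] [Algebra K R]
    [Algebra K' R] [IsScalarTower k K R] [IsScalarTower k K' R] [Module.Finite K R] (h : IsField R)
    (e : (K ⊗[k] K') ≃+* R)
    (he : ∀ (x : K) (y : K'), e (x ⊗ₜ[k] y) = algebraMap K R x * algebraMap K' R y) :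
    ∃ (M : Type) (_ : Field M) (_ : NumberField M) (_ : Algebra k M) (_ : Algebra K M)
    (_ : Algebra K' M), IsScalarTower k K M ∧ IsScalarTower k K' M ∧ IsTP k K K' M := by
  let F : Field R := h.toField
  let a0 : Algebra k R := inferInstance
  let a1 : Algebra K R := inferInstance
  let a2 : Algebra K' R := inferInstance
  have : CharZero R := charZero_of_injective_algebraMap (algebraMap K R).injective
  have : IsScalarTower ℚ K R := IsScalarTower.of_algebraMap_eq fun x => by
    have := Subsingleton.elim (algebraMap ℚ R) ((algebraMap K R).comp (algebraMap ℚ K))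
    rw [this]
    rfl
  have : FiniteDimensional ℚ R := Module.Finite.trans K R
  have nf : NumberField R := NumberField.mk
  exact ⟨R, F, nf, a0, a1, a2, inferInstance, inferInstance, e, he⟩

theorem hC5 : StC5 := by
  intro k K K' _ _ _ _ _ _ _ _ h
  let a2 : Algebra K' (K ⊗[k] K') := Algebra.TensorProduct.rightAlgebra
  refine fieldTP k K K' (K ⊗[k] K') h (RingEquiv.refl _) fun x y => ?_
  simp [Algebra.TensorProduct.algebraMap_def, Algebra.TensorProduct.right_algebraMap_apply]

end Pool.Agent.Helper82.BC
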