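import Pool.Agent.Helper96.BC.St

/-!
# Project BC, module C6 (means of the numbers of primes of degree one)
-/

set_option autoImplicit false

namespace Pool.Agent.Helper82.BC

open Pool.Agent.Helper96.BC Pool.Agent.Helper95.TT
open Filter Topology
open scoped TensorProduct

private lemma finsum_one_card (α : Type) : ∑ᶠ _ : α, (1 : ℝ) = (Nat.card α : ℝ) := by
  cases finite_or_infinite α with
  | inl h =>
    have := Fintype.ofFinite α
    rw [finsum_eq_sum_of_fintype, Nat.card_eq_fintype_card]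
    simp
  | inr h =>
    rw [Nat.card_eq_zero_of_infinite, Nat.cast_zero]
    apply finsum_of_infinite_support
    rw [Function.support_const one_ne_zero]
    exact Set.infinite_univ

private lemma wt_nn {K : Type} [Field K] [NumberField K] (s : ℝ) (v : Pr K) : 0 ≤ wt s v :=
  mul_nonneg (Real.log_natCast_nonneg _) (Real.rpow_nonneg (Nat.cast_nonneg _) _)

private lemma wt_le_one {K : Type} [Field K] [NumberField K] (s : ℝ) (hs : 1 ≤ s) (v : Pr K) :
    wt s v ≤ 1 := by
  unfold wt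
  rcases Nat.eq_zero_or_pos (q v) with h | h
  · rw [h]; simp
  · have h1 : (1 : ℝ) ≤ q v := by exact_mod_cast h
    have h0 : (0 : ℝ) < q v := by linarith
    have h2 : Real.log (q v) ≤ q v := (Real.log_le_sub_one_of_pos h0).trans (by linarith)
    have h3 : (q v : ℝ) ^ (-s) ≤ (q v : ℝ) ^ (-1 : ℝ) :=
      Real.rpow_le_rpow_of_exponent_le h1 (by linarith)
    calc Real.log (q v) * (q v : ℝ) ^ (-s) ≤ q v * (q v : ℝ) ^ (-1 : ℝ) :=
          mul_le_mul h2 h3 (Real.rpow_nonneg h0.le _) h0.le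
      _ = 1 := by rw [Real.rpow_neg_one]; exact mul_inv_cancel₀ h0.ne'

private lemma tendsto_mul_bdd (f : ℝ → ℝ) (M : ℝ) (h : ∀ s : ℝ, 1 < s → |f s| ≤ M) :
    Tendsto (fun s : ℝ => (s - 1) * f s) (𝓝[>] 1) (𝓝 0) := by
  have h1 : Tendsto (fun s : ℝ => (s - 1) * M) (𝓝[>] 1) (𝓝 0) := by
    have : Tendsto (fun s : ℝ => (s - 1) * M) (𝓝 1) (𝓝 ((1 - 1) * M)) :=
      ((continuous_id.sub continuous_const).mul continuous_const).tendsto 1
    simpa using this.mono_left nhdsWithin_le_nhds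
  refine squeeze_zero_norm' ?_ h1
  filter_upwards [self_mem_nhdsWithin] with s hs
  have hs' : (1 : ℝ) < s := hs
  rw [Real.norm_eq_abs, abs_mul, abs_of_nonneg (by linarith : 0 ≤ s - 1)]
  exact mul_le_mul_of_nonneg_left (h s hs') (by linarith)

private theorem first (hA2 : StA2) (hC2 : StC2) (k K : Type) [Field k] [NumberField k] [Field K]
    [NumberField K] [Algebra k K] :
    Tendsto (fun s : ℝ => (s - 1) * ∑' v : Pr k, (N1 K v : ℝ) * wt s v) (𝓝[>] 1) (𝓝 1) := by
  obtain ⟨_, _, M, hM⟩ := hC2 k K (fun _ => 1) 1 (fun _ => by simp)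
  have hS : ∀ v : Pr k, S1 (fun _ : Pr K => (1 : ℝ)) v = (N1 K v : ℝ) := by
    intro v
    unfold S1 N1
    exact finsum_one_card _
  simp only [hS, one_mul] at hM
  have h1 := (hA2 K).2
  have h2 := tendsto_mul_bdd _ M hM
  have h3 := h1.sub h2
  rw [sub_zero] at h3
  refine h3.congr fun s => ?_
  ring

theorem hC6 : StA2 → StC2 → StC4 → StC5 → StC6 := by
  intro hA2 hC2 hC4 hC5 k K _ _ _ _ _
  refine ⟨first hA2 hC2 k K, ?_⟩
  intro K' _ _ _ hF
  obtain ⟨M, _, _, _, _, _, i1, i2, hTP⟩ := hC5 k K K' hF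
  have hfin := hC4 k K K' M hTP
  set T := hfin.toFinset with hT
  have hN : ∀ v : Pr k, v ∉ T → (N1 M v : ℝ) = (N1 K v : ℝ) * N1 K' v := by
    intro v hv
    rw [hT, Set.Finite.mem_toFinset, Set.mem_setOf_eq, not_not] at hv
    obtain ⟨e, _⟩ := hv
    unfold N1
    rw [Nat.card_congr e, Nat.card_prod]
    push_cast
    ring
  have h1 := first hA2 hC2 k M
  have hsM : ∀ s : ℝ, 1 < s → Summable (fun v : Pr k => (N1 M v : ℝ) * wt s v) := by
    intro s hs
    have := ((hC2 k M (fun _ => 1) 1 (fun _ => by simp)).2.1 s hs).2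
    refine this.congr fun v => ?_
    unfold S1 N1
    rw [finsum_one_card]
  set B : ℝ := ∑ v ∈ T, |(N1 K v : ℝ) * N1 K' v - N1 M v| with hB
  have hd : ∀ s : ℝ, 1 < s → |∑' v : Pr k, (N1 K v : ℝ) * N1 K' v * wt s v -
      ∑' v : Pr k, (N1 M v : ℝ) * wt s v| ≤ B := by
    intro s hs
    have h0 : ∀ v : Pr k, v ∉ T → ((N1 K v : ℝ) * N1 K' v - N1 M v) * wt s v = 0 := by
      intro v hv
      rw [hN v hv]; ring
    have hsd : Summable (fun v : Pr k => ((N1 K v : ℝ) * N1 K' v - N1 M v) * wt s v) :=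
      summable_of_ne_finset_zero (s := T) h0
    have e1 : ∑' v : Pr k, (N1 K v : ℝ) * N1 K' v * wt s v =
        ∑' v : Pr k, (N1 M v : ℝ) * wt s v +
          ∑' v : Pr k, ((N1 K v : ℝ) * N1 K' v - N1 M v) * wt s v := by
      rw [← (hsM s hs).tsum_add hsd]
      refine tsum_congr fun v => ?_
      ring
    rw [e1, add_sub_cancel_left, tsum_eq_sum (s := T) h0]
    refine (Finset.abs_sum_le_sum_abs _ _).trans (Finset.sum_le_sum fun v _ => ?_)
    rw [abs_mul, abs_of_nonneg (wt_nn s v)]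
    exact mul_le_of_le_one_right (abs_nonneg _) (wt_le_one s hs.le v)
  have h2 := tendsto_mul_bdd _ B hd
  have h3 := h1.add h2
  rw [add_zero] at h3
  refine h3.congr fun s => ?_
  ring

end Pool.Agent.Helper82.BC
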